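import Pool.Agent.H65.NV.PTargets

/-!
# Nonvanishing over totally real fields, part P: sums of periodic functions (row P_CNT)
-/

set_option autoImplicit false

open MeasureTheory Set Filter NumberField NumberField.InfinitePlace
open scoped Real

namespace Pool.Agent.H22.NVP_CNT

open Pool.Agent.H65.CM4 Pool.Agent.H61.NVK Pool.Agent.H89.NV Pool.Agent.H65.NV

variable (k : Type) [Field k] [NumberField k] [IsTotallyReal k]

theorem nm_sq (f : Ideal (𝓞 k)) : nm (f ^ 2) = nm f ^ 2 := by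
  unfold nm
  rw [map_pow]
  push_cast
  rfl

theorem int_scale (hcard : Fintype.card (Pl k) = dg k) (G : (Pl k → ℝ) → ℝ) (T : ℝ) (hT : 0 < T) :
    ∫ u : Pl k → ℝ, G (fun v => u v / T) = T ^ dg k * ∫ u, G u := by
  have h := MeasureTheory.Measure.integral_comp_smul (volume : Measure (Pl k → ℝ)) G T⁻¹
  have e1 : ∀ u : Pl k → ℝ, T⁻¹ • u = fun v => u v / T := by
    intro u
    funext v
    rw [Pi.smul_apply, smul_eq_mul, div_eq_inv_mul]
  simp only [e1] at h
  rw [h, Module.finrank_fintype_fun_eq_card, hcard, smul_eq_mul, inv_pow, inv_inv,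
    abs_of_pos (by positivity)]

theorem pf_CNT (hEMP : T_EMP k) (hGDB : T_GDB k) (hEMB : T_EMB k) :
    Pool.Agent.H89.NV.T_CNT k := by
  classical
  intro f q G η K ε hf hq hG hε
  obtain ⟨hcard, -, -, -, -, -, -, -, -, -, hideal, -⟩ := hEMB
  obtain ⟨-, hdb⟩ := hGDB G η hG
  obtain ⟨C', hC', hDB⟩ := hdb (dg k + 1)
  obtain ⟨C, hC, hE⟩ := hEMP (dg k + 1) 1 (by omega) le_rfl
  have hη := hG.pos
  have hff : f ^ 2 ≠ ⊥ := pow_ne_zero 2 hf
  set N : ℝ := nm (q * f ^ 2) ^ (((dg k + 1 : ℕ) : ℝ) / dg k) with hN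
  set A : ℝ := C * K * nm q * N * (1 + 1 / η) ^ dg k * C' with hA
  refine ⟨max 1 (A / ε), ?_⟩
  intro T hT g hgK hgper
  have hT1 : 1 ≤ T := le_trans (le_max_left _ _) hT
  have hT0 : 0 < T := by linarith
  have hTA : A / ε ≤ T := le_trans (le_max_right _ _) hT
  have hK : 0 ≤ K := le_trans (abs_nonneg _) (hgK 0)
  have hsupp : ∀ u : Pl k → ℝ, (∃ v, T / η < |u v - (fun _ : Pl k => (0 : ℝ)) v|) →
      G (fun v => u v / T) = 0 := by
    rintro u ⟨v, hv⟩
    apply hG.supp
    refine ⟨v, ?_⟩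
    intro hmem
    have h1 : u v / T ≤ 1 / η := hmem.2
    have h2 : η ≤ u v / T := hmem.1
    have h3 : 0 < u v := by
      have : 0 < u v / T := lt_of_lt_of_le hη h2
      rwa [lt_div_iff₀ hT0, zero_mul] at this
    simp only [sub_zero] at hv
    rw [abs_of_pos h3] at hv
    have h4 : u v ≤ T / η := by
      rw [div_le_iff₀ hT0] at h1
      calc u v ≤ 1 / η * T := h1
        _ = T / η := by ring
    linarith
  have hmain := hE (f ^ 2) q g (fun d => G (fun v => d v / T)) (fun _ => 0) 0 (T / η)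
    (C' / T ^ (dg k + 1)) K hff hq (by positivity) (by positivity) hsupp (hDB T hT1)
    (fun x _ => hgK x) (fun x _ y hy => hgper x y hy)
  have e1 : ∀ x : 𝓞 k, (((1 : ℕ) : ℝ) • em x + 0 : Pl k → ℝ) = em x := by
    intro x
    rw [Nat.cast_one, one_smul, add_zero]
  simp only [e1] at hmain
  have hint := int_scale k hcard G T hT0
  rw [hint, nm_sq] at hmain
  have e2 : (1 / (Real.sqrt (dk k) * ((1 : ℕ) : ℝ) ^ dg k * nm f ^ 2)) = kf f := by
    unfold kf
    rw [Nat.cast_one, one_pow, mul_one]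
  rw [e2] at hmain
  have e3 : kf f * ((∑ x ∈ (Rs (q * f ^ 2)).filter (fun x => x ∈ f ^ 2), g x) / nm q) *
      (T ^ dg k * ∫ u, G u) = kf f * T ^ dg k * (∫ u, G u) *
      ((∑ x ∈ (Rs (q * f ^ 2)).filter (fun x => x ∈ f ^ 2), g x) / nm q) := by ring
  rw [e3] at hmain
  refine hmain.trans ?_
  have hNn : 0 ≤ N := by
    rw [hN]
    apply Real.rpow_nonneg
    unfold nm
    positivity
  have hnq : 0 ≤ nm q := by
    unfold nm
    positivity
  have h5 : (1 + T / η) ^ dg k ≤ T ^ dg k * (1 + 1 / η) ^ dg k := by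
    rw [← mul_pow]
    apply pow_le_pow_left₀ (by positivity)
    have : T * (1 + 1 / η) = T + T / η := by ring
    rw [this]
    linarith
  calc C * K * nm q * N * (1 + T / η) ^ dg k * (C' / T ^ (dg k + 1))
      ≤ C * K * nm q * N * (T ^ dg k * (1 + 1 / η) ^ dg k) * (C' / T ^ (dg k + 1)) := by
        apply mul_le_mul_of_nonneg_right _ (by positivity)
        exact mul_le_mul_of_nonneg_left h5 (by positivity)
    _ = A / T := by
        rw [hA, pow_succ]
        field_simp
    _ ≤ ε := by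
        rw [div_le_iff₀ hT0]
        rw [div_le_iff₀ hε] at hTA
        linarith
    _ ≤ ε * T ^ dg k := by
        have : 1 ≤ T ^ dg k := one_le_pow₀ hT1
        nlinarith

end Pool.Agent.H22.NVP_CNT
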