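import Pool.Agent.H65.NV.PTargets

/-!
# Nonvanishing over totally real fields, part P: a short element of an ideal (row P_SHE)
-/

set_option autoImplicit false

open MeasureTheory Set Filter NumberField NumberField.InfinitePlace
open scoped Real

namespace Pool.Agent.H22.NVP_SHE

open Pool.Agent.H65.CM4 Pool.Agent.H61.NVK Pool.Agent.H89.NV Pool.Agent.H65.NV

variable (k : Type) [Field k] [NumberField k] [IsTotallyReal k]

theorem pf_SHE (hEMB : T_EMB k) (hMKI : T_MKI k) (hBAL : T_BAL k) : T_SHE k := by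
  obtain ⟨C₁, hC₁, h1⟩ := hMKI
  obtain ⟨C₂, hC₂, h2⟩ := hBAL
  obtain ⟨-, -, -, -, -, -, -, -, -, hint, hideal, -⟩ := hEMB
  have hn0 : (0 : ℝ) ≤ 1 / (dg k : ℝ) := by positivity
  have hC : 1 ≤ C₂ * C₁ ^ (1 / (dg k : ℝ)) := by
    have : 1 ≤ C₁ ^ (1 / (dg k : ℝ)) := Real.one_le_rpow hC₁ hn0
    nlinarith
  refine ⟨C₂ * C₁ ^ (1 / (dg k : ℝ)), hC, ?_⟩
  intro I hI
  obtain ⟨x, hxI, hx0, hx⟩ := h1 I hI
  have hpos : ∀ v : Pl k, 0 < |rv v (x : k)| := by
    intro v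
    rw [abs_pos]
    intro h0
    have h3 := hint x hx0
    have h4 : Nr (x : k) = 0 := by
      unfold Nr
      rw [Finset.prod_eq_zero (Finset.mem_univ v)]
      rw [h0, abs_zero]
    rw [h4] at h3
    linarith
  obtain ⟨u, hu⟩ := h2 (fun v => |rv v (x : k)|) hpos
  refine ⟨(u : 𝓞 k) * x, Ideal.mul_mem_left _ _ hxI, ?_, ?_⟩
  · exact mul_ne_zero (Units.ne_zero u) hx0
  · intro v
    have e : |em ((u : 𝓞 k) * x) v| = |rv v ((u : 𝓞 k) : k)| * |rv v (x : k)| := by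
      rw [← abs_mul]
      unfold Pool.Agent.H89.NV.em
      rw [← map_mul]
      rfl
    rw [e]
    refine (hu v).2.trans ?_
    have hnm : 1 ≤ nm I := (hideal I hI).1
    have hN : (∏ v' : Pl k, |rv v' (x : k)|) ≤ C₁ * nm I := hx
    have hN0 : 0 ≤ ∏ v' : Pl k, |rv v' (x : k)| := Finset.prod_nonneg fun v _ => abs_nonneg _
    calc C₂ * (∏ v' : Pl k, |rv v' (x : k)|) ^ (1 / (dg k : ℝ))
        ≤ C₂ * (C₁ * nm I) ^ (1 / (dg k : ℝ)) := by
          apply mul_le_mul_of_nonneg_left _ (by linarith)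
          exact Real.rpow_le_rpow hN0 hN hn0
      _ = C₂ * C₁ ^ (1 / (dg k : ℝ)) * nm I ^ (1 / (dg k : ℝ)) := by
          rw [Real.mul_rpow (by linarith) (by linarith)]
          ring

end Pool.Agent.H22.NVP_SHE
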