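import Pool.Agent.H65.NV.PTargets

/-!
# Nonvanishing over totally real fields, part P: balancing with squares of units (row P_UCO)
-/

set_option autoImplicit false

open MeasureTheory Set Filter NumberField NumberField.InfinitePlace
open scoped Real

namespace Pool.Agent.H22.NVP_UCO

open Pool.Agent.H65.CM4 Pool.Agent.H61.NVK Pool.Agent.H89.NV Pool.Agent.H65.NV

variable (k : Type) [Field k] [NumberField k] [IsTotallyReal k]

theorem pf_UCO (hBAL : T_BAL k) (hLCU : T_LCU k) (hEMS : T_EMS k) : T_UCO k := by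
  obtain ⟨C, hC, h2⟩ := hBAL
  obtain ⟨hring, -, -, -, -, hne, hspan, -, -, htop, -⟩ := hEMS
  have hsq : ∀ (ε : (𝓞 k)ˣ) (v : Pl k), em ((ε : 𝓞 k) ^ 2) v = (em (ε : 𝓞 k) v) ^ 2 := by
    intro ε v
    rw [pow_two, (hring (ε : 𝓞 k) (ε : 𝓞 k)).2.1, Pi.mul_apply, pow_two]
  constructor
  · refine ⟨C ^ 4, one_le_pow₀ hC, ?_⟩
    intro u hu
    obtain ⟨ε, hε⟩ := h2 (fun v => Real.sqrt (u v)) (fun v => Real.sqrt_pos.mpr (hu v))
    refine ⟨ε, ?_⟩
    set P : ℝ := (∏ v' : Pl k, Real.sqrt (u v')) ^ (1 / (dg k : ℝ)) with hP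
    have hP0 : 0 ≤ P := by
      rw [hP]
      apply Real.rpow_nonneg
      exact Finset.prod_nonneg fun v _ => Real.sqrt_nonneg _
    have e : ∀ v, em ((ε : 𝓞 k) ^ 2) v * u v = (|rv v ((ε : 𝓞 k) : k)| * Real.sqrt (u v)) ^ 2 := by
      intro v
      rw [hsq, mul_pow, Real.sq_sqrt (hu v).le, sq_abs]
      rfl
    intro v w
    simp only
    rw [e v, e w]
    have h1 := (hε v).2
    have h3 := (hε w).1
    have h1' : (|rv v ((ε : 𝓞 k) : k)| * Real.sqrt (u v)) ^ 2 ≤ (C * P) ^ 2 :=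
      pow_le_pow_left₀ (by positivity) h1 2
    have h3' : (P / C) ^ 2 ≤ (|rv w ((ε : 𝓞 k) : k)| * Real.sqrt (u w)) ^ 2 :=
      pow_le_pow_left₀ (by positivity) h3 2
    have hC0 : C ≠ 0 := by linarith
    calc (|rv v ((ε : 𝓞 k) : k)| * Real.sqrt (u v)) ^ 2 ≤ (C * P) ^ 2 := h1'
      _ = C ^ 4 * (P / C) ^ 2 := by
          field_simp
      _ ≤ C ^ 4 * (|rv w ((ε : 𝓞 k) : k)| * Real.sqrt (u w)) ^ 2 :=
          mul_le_mul_of_nonneg_left h3' (by positivity)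
  · intro R hR
    have hfin := (hLCU ⊤ (fun _ => 0) (R ^ 2) top_ne_bot (by positivity)).1
    refine ⟨hfin.toFinset, ?_⟩
    intro u ε hu hb1 hb2
    rw [Set.Finite.mem_toFinset]
    refine ⟨Submodule.mem_top, ?_⟩
    have hpos : ∀ v, 0 < em ((ε : 𝓞 k) ^ 2) v := by
      intro v
      rw [hsq]
      have := hne (ε : 𝓞 k) v (Units.ne_zero ε)
      positivity
    have hprod : ∏ v, em ((ε : 𝓞 k) ^ 2) v = 1 := by
      have h1 : ∏ v, |em ((ε : 𝓞 k) ^ 2) v| = 1 := by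
        rw [← hspan]
        have : Ideal.span {((ε : 𝓞 k)) ^ 2} = ⊤ := by
          rw [Ideal.span_singleton_eq_top]
          exact (Units.isUnit ε).pow 2
        rw [this, htop]
      rw [← h1]
      exact Finset.prod_congr rfl fun v _ => (abs_of_pos (hpos v)).symm
    intro v
    rw [sub_zero, abs_of_pos (hpos v)]
    obtain ⟨w, hw⟩ : ∃ w, em ((ε : 𝓞 k) ^ 2) w ≤ 1 := by
      by_contra hcon
      push Not at hcon
      have h5 : ∏ _v : Pl k, (1 : ℝ) < ∏ v, em ((ε : 𝓞 k) ^ 2) v :=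
        Finset.prod_lt_prod_of_nonempty (fun _ _ => one_pos) (fun w _ => hcon w) ⟨v, Finset.mem_univ v⟩
      rw [hprod, Finset.prod_const_one] at h5
      exact lt_irrefl _ h5
    have h6 : em ((ε : 𝓞 k) ^ 2) v * u v ≤ R * (em ((ε : 𝓞 k) ^ 2) w * u w) := hb2 v w
    have h7 : u w ≤ R * u v := hb1 w v
    have h8 : em ((ε : 𝓞 k) ^ 2) v * u v ≤ R ^ 2 * u v := by
      calc em ((ε : 𝓞 k) ^ 2) v * u v ≤ R * (em ((ε : 𝓞 k) ^ 2) w * u w) := h6
        _ ≤ R * (1 * (R * u v)) := by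
            apply mul_le_mul_of_nonneg_left _ (by linarith)
            exact mul_le_mul hw h7 (hu w).le (by norm_num)
        _ = R ^ 2 * u v := by ring
    exact le_of_mul_le_mul_right h8 (hu v)

end Pool.Agent.H22.NVP_UCO
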